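import Pool.Agent.LibACSG48.H5

/-!
# Leftmost alternating context-sensitive grammars are exactly alternating linear time

For every finite alphabet `T`: the languages generated in leftmost mode by alternating context-sensitive grammars are exactly the languages
without the empty word which are accepted by alternating multitape Turing machines in linear time.  The class of the leftmost languages
equals the class of the languages generated without restriction iff every language of an alternating linear bounded automaton is accepted
by an alternating multitape Turing machine in linear time.
-/

set_option autoImplicit false

namespace Pool.Agent.Results.MP_408050_lc.LinearTime

open Pool.Agent.ACSG48

/-- (i) The leftmost languages are those accepted in alternating linear time. (ii) The leftmost languages are the languages generated without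
restriction iff all languages of alternating linear bounded automata are accepted in alternating linear time. -/
theorem result (T : Type) [Finite T] :
    (∀ L : Set (List T), (∃ G : Grammar T, G.langLM = L) ↔ (([] : List T) ∉ L ∧ AltLinTime L)) ∧
    ({L : Set (List T) | ∃ G : Grammar T, G.langLM = L} = {L : Set (List T) | ∃ G : Grammar T, G.lang = L} ↔
      ∀ M : ALBA T, AltLinTime M.lang) :=
  ⟨langLM_iff, classes_eq_iff_ALBA⟩

end Pool.Agent.Results.MP_408050_lc.LinearTime
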